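import Pool.Agent.Lib.MP_73a842_co.Main

/-!
# Many cs-2-neighborly centrally symmetric 3-spheres

The case `d = 3` of the comparison of `cs(d,n)` and `ncs(d,n)`.
-/

namespace Pool.Agent.Results.MP_73a842_co.ManyNeighborly3Spheres

open Pool.NCS

/-- (1) For `n ≥ 45` there are at least `2^(n(n-18)/20)` labelled cs-2-neighborly cs 3-spheres on
`V n = {±1, …, ±n}`.  (2) For every `c < 1/20` and all large `n` they form at least `2^(c n²)`
isomorphism classes.  (3) There are at most `(2n)^(8n²)` labelled cs 3-spheres on `V n`.  (4) So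
`log cs(3,n) ≤ 200 log₂(2n) · log ncs(3,n)` for `n ≥ 90`. -/
theorem result :
    (∀ n : ℕ, 45 ≤ n → (2 : ℝ) ^ ((n : ℝ) * (n - 18) / 20) ≤ ncs 3 n) ∧
    (∀ c : ℝ, c < 1 / 20 →
      ∃ n₀ : ℕ, ∀ n : ℕ, n₀ ≤ n → (2 : ℝ) ^ (c * (n : ℝ) ^ 2) ≤ types 2 n) ∧
    (∀ n : ℕ, cs 3 n ≤ (2 * n) ^ (8 * n ^ 2)) ∧
    (∀ n : ℕ, 90 ≤ n → Real.log (cs 3 n) ≤ 200 * Real.logb 2 (2 * n) * Real.log (ncs 3 n)) :=
  ⟨ncs_lower, fun _ hc => types_lower hc, cs_upper, log_cs_le⟩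

end Pool.Agent.Results.MP_73a842_co.ManyNeighborly3Spheres
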